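import Pool.Agent.Helper66.LK.Link

set_option autoImplicit false

/-! If two replicas always agree then case A holds. -/

namespace Pool.Agent.Helper66.LK

open MeasureTheory ProbabilityTheory Set Pool.Agent.Helper60.TJ Pool.Agent.Helper61.MM

/-- a measure on configurations such that two independent samples agree is carried by one
configuration -/
theorem dirac_of_prod {ν : Measure (Ed → Bool)} [IsProbabilityMeasure ν]
    (h : (ν.prod ν) {q | q.1 ≠ q.2} = 0) (e : Ed) :
    ∀ᵐ U ∂ν, U e = decide (ν {U | U e = true} = 1) := by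
  have hm : ∀ b : Bool, MeasurableSet {U : Ed → Bool | U e = b} := by
    intro b
    have h1 : Measurable fun U : Ed → Bool => U e := measurable_pi_apply e
    exact h1 (measurableSet_singleton b)
  have h1 : (ν.prod ν) ({U | U e = true} ×ˢ {U | U e = false}) = 0 := by
    refine measure_mono_null ?_ h
    rintro ⟨U, U'⟩ ⟨h2, h3⟩ h4
    have h2' : U e = true := h2
    have h3' : U' e = false := h3
    have h4' : U = U' := h4
    rw [h4', h3'] at h2'
    exact Bool.noConfusion h2'
  rw [Measure.prod_prod, mul_eq_zero] at h1
  have hcompl : {U : Ed → Bool | U e = true}ᶜ = {U | U e = false} := by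
    ext U; simp
  by_cases hp : ν {U | U e = true} = 1
  · have h2 : ν {U : Ed → Bool | U e = true}ᶜ = 0 := by
      rw [prob_compl_eq_zero_iff (hm true)]
      exact hp
    have h3 : ∀ᵐ U ∂ν, U e = true := h2
    filter_upwards [h3] with U hU
    rw [hU]
    simp [hp]
  · have h2 : ν {U : Ed → Bool | U e = true} = 0 := by
      rcases h1 with h1 | h1
      · exact h1
      · exfalso
        apply hp
        rw [← prob_compl_eq_zero_iff (hm true), hcompl]
        exact h1
    have h3 : ∀ᵐ U ∂ν, U e = false := by
      rw [ae_iff]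
      refine measure_mono_null (fun U hU => ?_) h2
      have hU' : ¬ U e = false := hU
      simpa using hU'
    filter_upwards [h3] with U hU
    rw [hU]
    simp [hp]

/-- the T-join -/
noncomputable def alk (κ : Kernel WT (Ed → Bool)) (b : WT) : Ed → Bool := fun e =>
  decide (κ b {U | U e = true} = 1)

theorem measurable_alk (κ : Kernel WT (Ed → Bool)) : Measurable (alk κ) := by
  refine measurable_pi_iff.2 fun e => ?_
  have hm : MeasurableSet {U : Ed → Bool | U e = true} := by
    have h1 : Measurable fun U : Ed → Bool => U e := measurable_pi_apply e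
    exact h1 (measurableSet_singleton true)
  have h1 : MeasurableSet {b : WT | κ b {U | U e = true} = 1} :=
    (Kernel.measurable_coe κ hm) (measurableSet_singleton 1)
  refine measurable_to_bool ?_
  have h2 : (fun b => alk κ b e) ⁻¹' {true} = {b : WT | κ b {U | U e = true} = 1} := by
    ext b
    simp [alk]
  rw [h2]
  exact h1

theorem tt_g0 (ω : Env) : tt g0 ω = ω.2 := by
  funext v
  simp [tt, vx, Pool.Agent.Helper61.MM.indV]

theorem ww_g0 (ω : Env) : ww g0 ω = fun e => (ω.1 e).1 := by
  funext e
  simp [ww]

theorem uu_shV (u : Vx) (s : Vl) : uu (shV u s) g0 = sh u (uu s g0) := by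
  simp [uu, shV, shSt, trV, trE]

theorem measurable_uu0 : Measurable fun s : Vl => uu s g0 :=
  measurable_fst.comp (measurable_pi_apply g0)

theorem measurable_rs : Measurable rs :=
  measurable_pi_iff.2 fun S => measurable_pi_apply ((S, ∅) : Gm)

theorem measurable_bE0 : Measurable bE0 := by
  refine Measurable.prodMk (measurable_pi_iff.2 fun e => ?_) measurable_snd
  exact measurable_fst.comp ((measurable_pi_apply e).comp measurable_fst)

theorem measurable_spr : Measurable spr :=
  measurable_pi_iff.2 fun e => measurable_snd.comp ((measurable_pi_apply e).comp measurable_fst)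

theorem measurableSet_GS :
    MeasurableSet {q : WT × (Ed → Bool) | q.2 ∈ GS q.1.1 q.1.2} := by
  have h1 : {q : WT × (Ed → Bool) | q.2 ∈ GS q.1.1 q.1.2} =
      (⋂ v : Vx, {q | par q.2 v = q.1.2 v}) ∩
        ⋂ C : {C : Finset Ed // IsCyc C}, {q | 0 ≤ en q.1.1 q.2 C.1} := by
    ext q
    simp only [GS, mem_ofPred_eq, mem_inter_iff, mem_iInter, Subtype.forall]
  rw [h1]
  refine (MeasurableSet.iInter fun v => ?_).inter (MeasurableSet.iInter fun C => ?_)
  · exact measurableSet_eq_fun ((Pool.Agent.Helper60.TJ.measurable_par v).comp measurable_snd)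
      ((measurable_pi_apply v).comp (measurable_snd.comp measurable_fst))
  · refine measurableSet_le measurable_const ?_
    exact (measurable_en_prod C.1).comp ((measurable_fst.comp measurable_fst).prodMk
      measurable_snd)

theorem measurable_shB (u : Vx) : Measurable (shB u) := by
  refine Measurable.prodMk ((measurable_sh u).comp measurable_fst) ?_
  exact measurable_pi_iff.2 fun v => (measurable_pi_apply (v + u)).comp measurable_snd

/-- **one state**: if two replicas of the extended metastate agree almost surely then case A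
holds -/
theorem caseA_of_R {μ : Measure ℝ} [IsProbabilityMeasure μ] (hμ : ∀ x : ℝ, μ {x} = 0)
    (hsym : μ.map (fun x => -x) = μ) {κ : Kernel WT Rs} {R : Measure Om} (hR : IsR (lm μ) κ R)
    (h0 : R (Df 0 1 g0) = 0) : Pool.H66.EAM.CaseA μ := by
  have := hR.mark
  have := hR.prob
  have := prob_lm μ
  -- the law of weights, frustrated plaquettes and restricted volumes
  set F : Om → (Ed → ℝ) × WT × Rs × Rs × Rs :=
    fun z => (spr z.1, bE0 z.1, rs z.2.1, rs z.2.2.1, rs z.2.2.2) with hF
  have hFm : Measurable F := by
    refine (measurable_spr.comp measurable_fst).prodMk ((measurable_bE0.comp measurable_fst).prodMk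
      ((measurable_rs.comp (measurable_fst.comp measurable_snd)).prodMk
        ((measurable_rs.comp (measurable_fst.comp (measurable_snd.comp measurable_snd))).prodMk
          (measurable_rs.comp (measurable_snd.comp (measurable_snd.comp measurable_snd))))))
  have hlaw : R.map (fun z => (F z).2) = (PB (lm μ)) ⊗ₘ (κ ×ₖ (κ ×ₖ κ)) := by
    have h1 : R.map (fun z => (F z).2) = (R.map F).map Prod.snd := by
      rw [Measure.map_map measurable_snd hFm]
      rfl
    rw [h1, hR.law, Measure.map_snd_prod]
    simp
  have hF2m : Measurable fun z => (F z).2 := measurable_snd.comp hFm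
  have hb : R.map (fun z => bE0 z.1) = PB (lm μ) := by
    have h1 : R.map (fun z => bE0 z.1) = (R.map fun z => (F z).2).map Prod.fst := by
      rw [Measure.map_map measurable_fst hF2m]
      rfl
    rw [h1, hlaw]
    exact Measure.fst_compProd _ _
  have hbm : Measurable fun z : Om => bE0 z.1 := measurable_bE0.comp measurable_fst
  -- the conditional law of the T-join
  have hUm : Measurable fun r : Rs => (r ∅).1 := measurable_fst.comp (measurable_pi_apply ∅)
  set k : Kernel WT (Ed → Bool) := κ.map fun r => (r ∅).1 with hk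
  have : IsMarkovKernel k := Kernel.IsMarkovKernel.map κ hUm
  have hne : MeasurableSet {q : (Ed → Bool) × (Ed → Bool) | q.1 ≠ q.2} := by
    have h1 : {q : (Ed → Bool) × (Ed → Bool) | q.1 ≠ q.2} = ⋃ e : Ed,
        {q | q.1 e ≠ q.2 e} := by
      ext q
      simp only [ne_eq, mem_ofPred_eq, mem_iUnion]
      rw [← not_forall, funext_iff]
    rw [h1]
    refine MeasurableSet.iUnion fun e => ?_
    refine (measurableSet_eq_fun ?_ ?_).compl
    · exact (measurable_pi_apply e).comp measurable_fst
    · exact (measurable_pi_apply e).comp measurable_snd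
  have hD : MeasurableSet {q : WT × Rs × Rs × Rs | (q.2.1 ∅).1 ≠ (q.2.2.1 ∅).1} := by
    have h1 : Measurable fun q : WT × Rs × Rs × Rs => ((q.2.1 ∅).1, (q.2.2.1 ∅).1) :=
      (hUm.comp (measurable_fst.comp measurable_snd)).prodMk
        (hUm.comp (measurable_fst.comp (measurable_snd.comp measurable_snd)))
    exact h1 hne
  have h1 : ((PB (lm μ)) ⊗ₘ (κ ×ₖ (κ ×ₖ κ))) {q | (q.2.1 ∅).1 ≠ (q.2.2.1 ∅).1} = 0 := by
    rw [← hlaw, Measure.map_apply hF2m hD]
    exact h0
  have h2 : ∀ᵐ b ∂(PB (lm μ)), (k b).prod (k b) {q | q.1 ≠ q.2} = 0 := by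
    rw [Measure.compProd_apply hD, lintegral_eq_zero_iff] at h1
    · filter_upwards [h1] with b hb'
      have h3 : (κ b).prod ((κ b).prod (κ b)) {q | (q.1 ∅).1 ≠ (q.2.1 ∅).1} = 0 := by
        have h4 := hb'
        rw [Kernel.prod_apply, Kernel.prod_apply] at h4
        exact h4
      rw [hk, Kernel.map_apply _ hUm]
      rw [Measure.map_prod_map (κ b) (κ b) hUm hUm, Measure.map_apply (by fun_prop) hne]
      have h5 : ((κ b).prod ((κ b).prod (κ b))).map (fun q => (q.1, q.2.1)) =
          (κ b).prod (κ b) := by
        have h6 : (fun q : Rs × Rs × Rs => (q.1, q.2.1)) = Prod.map id Prod.fst := rfl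
        rw [h6, ← Measure.map_prod_map _ _ measurable_id measurable_fst, Measure.map_id,
          Measure.map_fst_prod]
        simp
      rw [← h5, Measure.map_apply (by fun_prop)]
      · exact h3
      · exact (Measurable.prodMk (hUm.comp measurable_fst) (hUm.comp measurable_snd)) hne
    · exact Kernel.measurable_kernel_prodMk_left hD
  -- the T-join is a function of weights and frustrated plaquettes
  have h3 : ∀ᵐ z ∂(R), uu z.2.1 g0 = alk k (bE0 z.1) := by
    have h4 : ∀ᵐ q ∂((PB (lm μ)) ⊗ₘ (κ ×ₖ (κ ×ₖ κ))), (q.2.1 ∅).1 = alk k q.1 := by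
      have h5 : ∀ e : Ed, ∀ᵐ q ∂((PB (lm μ)) ⊗ₘ (κ ×ₖ (κ ×ₖ κ))),
          (q.2.1 ∅).1 e = alk k q.1 e := by
        intro e
        have hme : Measurable fun q : WT × Rs × Rs × Rs => ((q.2.1 ∅).1 e, alk k q.1 e) :=
          ((measurable_pi_apply e).comp (hUm.comp (measurable_fst.comp measurable_snd))).prodMk
            ((measurable_pi_apply e).comp ((measurable_alk k).comp measurable_fst))
        have hset : MeasurableSet {q : WT × Rs × Rs × Rs | (q.2.1 ∅).1 e = alk k q.1 e} :=
          hme (measurableSet_eq_fun measurable_fst measurable_snd)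
        rw [Measure.ae_compProd_iff hset]
        filter_upwards [h2] with b hb'
        have h6 := dirac_of_prod hb' e
        rw [hk, Kernel.map_apply _ hUm] at h6
        have h7 := ae_of_ae_map hUm.aemeasurable h6
        rw [Kernel.prod_apply]
        have h8 : ∀ᵐ r ∂((κ b).prod ((κ ×ₖ κ) b)).map Prod.fst, (r ∅).1 e = alk k b e := by
          rw [Measure.map_fst_prod]
          simp only [measure_univ, one_smul]
          filter_upwards [h7] with r hr
          rw [hr]
          unfold alk
          rw [hk, Kernel.map_apply _ hUm]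
        exact ae_of_ae_map measurable_fst.aemeasurable h8
      filter_upwards [ae_all_iff.2 h5] with q hq
      exact funext hq
    rw [← hlaw] at h4
    exact ae_of_ae_map hF2m.aemeasurable h4
  refine caseA_of_al hμ hsym (al := alk k) (measurable_alk k) ?_ fun u => ?_
  · have h5 : ∀ᵐ z ∂(R), alk k (bE0 z.1) ∈ GS (bE0 z.1).1 (bE0 z.1).2 := by
      filter_upwards [h3, hR.ok] with z hz hok
      have h6 := (hok 0).mem g0
      have e1 : ww g0 z.1 = (bE0 z.1).1 := ww_g0 z.1
      have e2 : tt g0 z.1 = (bE0 z.1).2 := tt_g0 z.1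
      rw [e1, e2] at h6
      rw [← hz]
      exact h6
    rw [← hb]
    refine (ae_map_iff hbm.aemeasurable ?_).2 h5
    have h6 : Measurable fun b : WT => (b, alk k b) := measurable_id.prodMk (measurable_alk k)
    exact h6 measurableSet_GS
  · have h5 : ∀ᵐ z ∂(R), alk k (shB u (bE0 z.1)) = sh u (alk k (bE0 z.1)) := by
      have h6 := (hR.shift u).quasiMeasurePreserving.ae h3
      filter_upwards [h3, h6] with z hz hz'
      have e1 : uu (shO u z).2.1 g0 = sh u (uu z.2.1 g0) := uu_shV u z.2.1
      have e2 : bE0 (shO u z).1 = shB u (bE0 z.1) := rfl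
      rw [e1, e2, hz] at hz'
      exact hz'.symm
    rw [← hb]
    refine (ae_map_iff hbm.aemeasurable ?_).2 h5
    have h7 : Measurable fun b : WT => alk k (shB u b) :=
      (measurable_alk k).comp (measurable_shB u)
    have h8 : Measurable fun b : WT => sh u (alk k b) :=
      (measurable_sh u).comp (measurable_alk k)
    have h9 : {b : WT | alk k (shB u b) = sh u (alk k b)} =
        ⋂ e : Ed, {b | alk k (shB u b) e = sh u (alk k b) e} := by
      ext b
      simp only [mem_ofPred_eq, mem_iInter]
      exact funext_iff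
    rw [h9]
    exact MeasurableSet.iInter fun e => measurableSet_eq_fun
      ((measurable_pi_apply e).comp h7) ((measurable_pi_apply e).comp h8)

end Pool.Agent.Helper66.LK
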