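import Pool.Agent.Helper60.TJ.A1
import Pool.Agent.Helper66.TJ.Meas
import Pool.Agent.Helper66.EAM.Defs

set_option autoImplicit false

/-! Spin configuration of a T-join; ground states. -/

namespace Pool.Agent.Helper66.LK

open MeasureTheory Set Pool.Agent.Helper60.TJ Pool.Agent.Helper60.TJ.A1x

/-- potential of an even edge set -/
def pot (X : Ed → Bool) : Vx → Bool := fun v =>
  xor (prim (fun i => X ((i, 0), false)) v.1) (prim (fun j => X ((v.1, j), true)) v.2)

theorem prim_tel (g : ℤ → Bool) (n : ℤ) : prim (fun i => xor (g i) (g (i + 1))) n =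
    xor (g 0) (g n) := by
  have h := const_of_succ (g := fun n => xor (prim (fun i => xor (g i) (g (i + 1))) n)
    (xor (g 0) (g n))) (by
      intro n
      simp only [prim_succ]
      generalize prim (fun i => xor (g i) (g (i + 1))) n = b1
      generalize g n = b2
      generalize g (n + 1) = b3
      generalize g 0 = b4
      revert b1 b2 b3 b4
      decide) n
  simp only [prim_zero] at h
  revert h
  generalize prim (fun i => xor (g i) (g (i + 1))) n = b1
  generalize g n = b2
  generalize g 0 = b4
  revert b1 b2 b4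
  decide

theorem pot_cut (s : Vx → Bool) (v : Vx) : pot (cut s) v = xor (s 0) (s v) := by
  obtain ⟨x, y⟩ := v
  unfold pot
  simp only [cut_false, cut_true]
  rw [prim_tel (fun i => s (i, 0)) x, prim_tel (fun j => s (x, j)) y]
  have h0 : s ((0 : ℤ), (0 : ℤ)) = s 0 := rfl
  rw [h0]
  generalize s 0 = b1
  generalize s (x, 0) = b2
  generalize s (x, y) = b3
  revert b1 b2 b3
  decide

theorem cut_pot {X : Ed → Bool} (h : ∀ v, par X v = false) : cut (pot X) = X := by
  obtain ⟨s, rfl⟩ := exists_cut h
  have h1 : pot (cut s) = fun v => xor (s 0) (s v) := funext (pot_cut s)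
  rw [h1]
  funext e
  show xor (xor (s 0) (s (pa e))) (xor (s 0) (s (pb e))) = xor (s (pa e)) (s (pb e))
  generalize s (pa e) = b1
  generalize s (pb e) = b2
  generalize s 0 = b3
  revert b1 b2 b3
  decide

/-- spin -/
noncomputable def sn (b : Bool) : ℝ := if b then -1 else 1

theorem sn_mul (a b : Bool) : sn a * sn b = sg (xor a b) := by
  cases a <;> cases b <;> simp [sn, sg]

theorem sn_pm (b : Bool) : sn b = 1 ∨ sn b = -1 := by
  cases b <;> simp [sn]

open Pool.H66.EAM

/-- vertices -/
def vV (x : V) : Vx := (x 0, x 1)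

/-- vertices, back -/
def Ve (v : Vx) : V := ![v.1, v.2]

/-- edges -/
def cE : E ≃ Ed where
  toFun e := (vV e.1, decide (e.2 = 1))
  invFun e := (Ve e.1, if e.2 then 1 else 0)
  left_inv := by
    rintro ⟨x, i⟩
    refine Prod.ext ?_ ?_
    · funext j
      fin_cases j <;> rfl
    · fin_cases i <;> rfl
  right_inv := by
    rintro ⟨⟨x, y⟩, b⟩
    cases b <;> rfl

theorem vV_Ve (v : Vx) : vV (Ve v) = v := rfl

theorem Ve_vV (x : V) : Ve (vV x) = x := by
  funext j
  fin_cases j <;> rfl

theorem pa_cE (e : E) : pa (cE e) = vV e.1 := rfl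

theorem pb_cE (e : E) : pb (cE e) = vV (e.1 + (Pi.single e.2 (1 : ℤ) : Fin 2 → ℤ)) := by
  obtain ⟨x, i⟩ := e
  fin_cases i
  · simp [pb, cE, vV]
  · simp [pb, cE, vV]

theorem sg_pm (b : Bool) : sg (!b) = - sg b := by cases b <;> simp [sg]

theorem ground_of_GS {J : E → ℝ} {J' : Ed → ℝ} (hJ : ∀ e, J e = J' (cE e))
    (hnt : NT (wt J')) {U : Ed → Bool} (hU : U ∈ GS (wt J') (fr J')) :
    IsGroundState J (fun x => sn (pot (bx (ng J') U) (vV x))) := by
  classical
  set X : Ed → Bool := bx (ng J') U with hX
  set s : Vx → Bool := pot X with hs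
  have hXe : ∀ v, par X v = false := by
    intro v
    rw [hX, par_bx, hU.1 v]
    unfold fr
    simp
  have hcs : cut s = X := cut_pot hXe
  refine ⟨fun x => sn_pm _, fun ρ hρ hfin hne => ?_⟩
  set r : Vx → Bool := fun v => decide (ρ (Ve v) = -1) with hr
  have hρr : ∀ x, ρ x = sn (r (vV x)) := by
    intro x
    rw [hr]
    simp only [Ve_vV]
    rcases hρ x with h | h
    · rw [h]; norm_num [sn]
    · rw [h]; simp [sn]
  have hfinA : {v : Vx | r v ≠ s v}.Finite := by
    refine (hfin.image vV).subset ?_
    intro v hv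
    refine ⟨Ve v, ?_, vV_Ve v⟩
    intro h1
    rw [hρr, vV_Ve] at h1
    have h2 : sn (r v) = sn (s v) := h1
    apply hv
    revert h2
    cases r v <;> cases s v <;> norm_num [sn]
  set A : Finset Vx := hfinA.toFinset with hA
  have hmA : ∀ v, v ∈ A ↔ r v ≠ s v := fun v => by rw [hA, Set.Finite.mem_toFinset]; rfl
  have hrs : r = fun v => xor (s v) (Pool.Agent.Helper60.TJ.indV A v) := by
    funext v
    unfold Pool.Agent.Helper60.TJ.indV
    by_cases h : v ∈ A
    · have := (hmA v).1 h
      revert this
      simp only [h, decide_true]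
      cases r v <;> cases s v <;> simp
    · have : r v = s v := not_not.1 fun h1 => h ((hmA v).2 h1)
      simp [h, this]
  obtain ⟨C, hC1, hC2⟩ := exists_cyc_cut A
  have hcr : cut r = bx (cut s) (ind C) := by
    rw [hC2, hrs]
    funext e
    show xor (xor (s (pa e)) (Pool.Agent.Helper60.TJ.indV A (pa e)))
      (xor (s (pb e)) (Pool.Agent.Helper60.TJ.indV A (pb e))) =
      xor (xor (s (pa e)) (s (pb e))) (xor (Pool.Agent.Helper60.TJ.indV A (pa e))
        (Pool.Agent.Helper60.TJ.indV A (pb e)))
    generalize s (pa e) = b1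
    generalize s (pb e) = b2
    generalize Pool.Agent.Helper60.TJ.indV A (pa e) = b3
    generalize Pool.Agent.Helper60.TJ.indV A (pb e) = b4
    revert b1 b2 b3 b4
    decide
  have hCne : C.Nonempty := by
    rw [Finset.nonempty_iff_ne_empty]
    rintro rfl
    apply hne
    have h0 : cut (Pool.Agent.Helper60.TJ.indV A) = cut (fun _ => false) := by
      rw [← hC2]
      funext e
      simp [ind, cut]
    have hAe : A = ∅ := by
      rcases cut_eq_iff.1 h0 with h1 | h1
      · ext v
        have := congrFun h1 v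
        simpa [Pool.Agent.Helper60.TJ.indV] using this
      · exfalso
        have h2 : ∀ v, v ∈ A := by
          intro v
          have := congrFun h1 v
          simpa [Pool.Agent.Helper60.TJ.indV] using this
        exact Set.infinite_univ (α := Vx) (A.finite_toSet.subset fun v _ => by exact_mod_cast h2 v)
    funext x
    rw [hρr]
    have h3 : r (vV x) = s (vV x) := by
      by_contra h4
      have := (hmA (vV x)).2 h4
      rw [hAe] at this
      simp at this
    rw [h3]
  have hen : en (wt J') U C = ∑ e ∈ C, J' e * sg (cut s e) := by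
    unfold en
    refine Finset.sum_congr rfl fun e _ => ?_
    have e1 : U e = xor (ng J' e) (cut s e) := by
      rw [hcs, hX]
      unfold bx
      cases ng J' e <;> simp
    rw [e1, sg_xor, ← mul_assoc]
    congr 1
    exact abs_mul_sg (J' e)
  have hpos : 0 < en (wt J') U C := lt_of_le_of_ne (hU.2 C hC1) (Ne.symm (hnt C hCne U))
  have hsum : (∑ᶠ e : E, J e * (sn (s (vV e.1)) *
      sn (s (vV (e.1 + (Pi.single e.2 (1 : ℤ) : Fin 2 → ℤ)))) - ρ e.1 *
        ρ (e.1 + (Pi.single e.2 (1 : ℤ) : Fin 2 → ℤ)))) = 2 * en (wt J') U C := by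
    have h1 : ∀ e : E, J e * (sn (s (vV e.1)) *
        sn (s (vV (e.1 + (Pi.single e.2 (1 : ℤ) : Fin 2 → ℤ)))) - ρ e.1 *
          ρ (e.1 + (Pi.single e.2 (1 : ℤ) : Fin 2 → ℤ))) =
        (fun f : Ed => J' f * (sg (cut s f) - sg (cut r f))) (cE e) := by
      intro e
      simp only
      rw [hρr, hρr, sn_mul, sn_mul, hJ, ← pa_cE, ← pb_cE]
      rfl
    rw [finsum_congr h1]
    rw [finsum_comp_equiv cE (f := fun f : Ed => J' f * (sg (cut s f) - sg (cut r f)))]
    have h2 : ∀ f : Ed, J' f * (sg (cut s f) - sg (cut r f)) =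
        if f ∈ C then 2 * (J' f * sg (cut s f)) else 0 := by
      intro f
      rw [hcr]
      unfold bx ind
      by_cases hf : f ∈ C
      · simp only [hf, decide_true, Bool.xor_true, sg_pm, if_true]
        ring
      · simp only [hf, decide_false, Bool.xor_false, sub_self, mul_zero, if_false]
    rw [finsum_congr h2, finsum_eq_sum_of_support_subset (s := C)]
    · rw [Finset.sum_congr rfl fun f hf => if_pos hf, ← Finset.mul_sum, hen]
    · intro f hf
      by_contra h3
      apply hf
      have h4 : f ∉ C := fun h5 => h3 (by exact_mod_cast h5)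
      simp [h4]
  rw [hsum]
  linarith

end Pool.Agent.Helper66.LK
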