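import Pool.Agent.Helper66.LK.Link

set_option autoImplicit false

/-! FIN-A: from weights and frustrated plaquettes to couplings. -/

namespace Pool.Agent.Helper66.LK.FinA

open MeasureTheory Pool.Agent.Helper60.TJ
open Pool.Agent.Helper61.MM (shB shT PB WT)

/-- weights and frustrated plaquettes of symmetric couplings are independent, the latter are fair
coins -/
theorem law_wf {μ : Measure ℝ} [IsProbabilityMeasure μ] (hsym : μ.map (fun x => -x) = μ)
    (hatl : ∀ x : ℝ, μ {x} = 0) :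
    (PP μ).map (fun J => (wt J, fr J)) = PB (μ.map fun x => |x|) :=
  Pool.Agent.Helper66.LK.law_wf hatl hsym

/-- a covariant T-join gives a covariant ground state -/
theorem cov_of_F {μ : Measure ℝ} [IsProbabilityMeasure μ] (hsym : μ.map (fun x => -x) = μ)
    (hatl : ∀ x : ℝ, μ {x} = 0) {F : WT → (Ed → Bool)} (hF : Measurable F)
    (hGS : ∀ᵐ b ∂(PB (μ.map fun x => |x|)), F b ∈ GS b.1 b.2)
    (hsh : ∀ u, ∀ᵐ b ∂(PB (μ.map fun x => |x|)), F (shB u b) = sh u (F b)) :
    ∃ α : (Pool.H66.EAM.E → ℝ) → Pool.H66.EAM.V → ℝ, Pool.H66.EAM.Covariant μ id α :=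
  ⟨alp F, covariant_of_al hatl hsym hF hGS hsh⟩

end Pool.Agent.Helper66.LK.FinA
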