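import Pool.Agent.Helper61.MM.Defs
import Pool.Agent.Helper66.TJ.Flp

set_option autoImplicit false

/-! The law of (weights, frustrated plaquettes) of iid symmetric couplings. -/

namespace Pool.Agent.Helper66.LK

open MeasureTheory Set Pool.Agent.Helper60.TJ Pool.Agent.Helper61.MM

theorem coin_apply (s : Set Bool) :
    coin s = (2 : ENNReal)⁻¹ * (s.indicator 1 true + s.indicator 1 false) := by
  unfold coin
  rw [Measure.smul_apply, Measure.add_apply, Measure.dirac_apply, Measure.dirac_apply,
    smul_eq_mul]

theorem coin_univ : coin univ = 1 := by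
  rw [coin_apply]
  simp only [indicator_univ, Pi.one_apply]
  rw [one_add_one_eq_two]
  exact ENNReal.inv_mul_cancel (by norm_num) (by norm_num)

instance : IsProbabilityMeasure coin := ⟨coin_univ⟩

theorem coin_single (b : Bool) : coin {b} = (2 : ENNReal)⁻¹ := by
  rw [coin_apply]
  cases b <;> simp

/-- a finite measure on the configurations which is invariant under flips of single plaquettes is
a multiple of the product of fair coins -/
theorem eq_smul_PT {m : Measure (Vx → Bool)} [IsFiniteMeasure m]
    (h : ∀ v : Vx, m.map (fun T => vx T (dl v)) = m) : m = m univ • PT := by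
  classical
  have hmeas : ∀ v : Vx, Measurable fun T : Vx → Bool => vx T (dl v) := by
    intro v
    refine measurable_pi_iff.2 fun u => ?_
    unfold vx
    exact (measurable_from_top (f := fun b : Bool => xor b (dl v u))).comp (measurable_pi_apply u)
  have key : ∀ s : Finset Vx, ∀ t : Vx → Set Bool, (∀ i, MeasurableSet (t i)) →
      m (Set.pi s t) = m univ * ∏ i ∈ s, coin (t i) := by
    intro s
    induction s using Finset.induction_on with
    | empty =>
      intro t _
      simp
    | insert v s hv ih =>
      intro t ht
      rw [Finset.prod_insert hv]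
      have hA := ih t ht
      have hms : MeasurableSet (Set.pi (s : Set Vx) t) :=
        MeasurableSet.pi s.countable_toSet fun i _ => ht i
      have hdec : Set.pi ((insert v s : Finset Vx) : Set Vx) t =
          Set.pi (s : Set Vx) t ∩ {T | T v ∈ t v} := by
        ext T
        simp only [Finset.coe_insert, mem_pi, mem_insert_iff, forall_eq_or_imp, mem_inter_iff,
          mem_ofPred_eq]
        tauto
      have hmb : ∀ b : Bool, MeasurableSet {T : Vx → Bool | T v = b} := by
        intro b
        have h1 : Measurable fun T : Vx → Bool => T v := measurable_pi_apply v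
        exact h1 (measurableSet_singleton b)
      have hhalf : ∀ b : Bool, m (Set.pi (s : Set Vx) t ∩ {T | T v = b}) =
          m (Set.pi (s : Set Vx) t ∩ {T | T v = !b}) := by
        intro b
        conv_lhs => rw [← h v]
        rw [Measure.map_apply (hmeas v) (hms.inter (hmb b))]
        congr 1
        ext T
        simp only [mem_preimage, mem_inter_iff, mem_pi, mem_ofPred_eq]
        have e1 : ∀ i ∈ (s : Set Vx), vx T (dl v) i = T i := by
          intro i hi
          have hne : i ≠ v := fun h1 => hv (by rw [← h1]; exact_mod_cast hi)
          unfold vx dl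
          simp [hne]
        have e2 : vx T (dl v) v = !(T v) := by
          unfold vx dl
          simp
        rw [e2]
        constructor
        · rintro ⟨h1, h2⟩
          refine ⟨fun i hi => ?_, by rw [← h2]; simp⟩
          rw [← e1 i hi]; exact h1 i hi
        · rintro ⟨h1, h2⟩
          refine ⟨fun i hi => ?_, by rw [h2]; simp⟩
          rw [e1 i hi]; exact h1 i hi
      have hsum : m (Set.pi (s : Set Vx) t) = m (Set.pi (s : Set Vx) t ∩ {T | T v = true}) +
          m (Set.pi (s : Set Vx) t ∩ {T | T v = false}) := by
        rw [← measure_inter_add_sdiff (Set.pi (s : Set Vx) t) (hmb true)]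
        congr 2
        ext T
        simp only [mem_sdiff, mem_inter_iff, mem_ofPred_eq]
        cases T v <;> simp
      have hb : ∀ b : Bool, m (Set.pi (s : Set Vx) t ∩ {T | T v = b}) =
          m (Set.pi (s : Set Vx) t) * (2 : ENNReal)⁻¹ := by
        intro b
        have h1 : m (Set.pi (s : Set Vx) t) = 2 * m (Set.pi (s : Set Vx) t ∩ {T | T v = b}) := by
          rw [two_mul]
          cases b
          · conv_lhs => rw [hsum]
            rw [hhalf true]; rfl
          · conv_lhs => rw [hsum]
            rw [hhalf false]; rfl
        rw [h1, mul_comm (2 : ENNReal), mul_assoc, ENNReal.mul_inv_cancel (by norm_num)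
          (by norm_num), mul_one]
      rw [hdec]
      by_cases h1 : true ∈ t v <;> by_cases h2 : false ∈ t v
      · have e : t v = univ := by
          ext b; cases b <;> simp [h1, h2]
        have e3 : {T : Vx → Bool | T v ∈ t v} = univ := by rw [e]; simp
        rw [e3, inter_univ, e, coin_univ, one_mul, hA]
      · have e : t v = {true} := by
          ext b; cases b <;> simp [h1, h2]
        have e3 : {T : Vx → Bool | T v ∈ t v} = {T | T v = true} := by rw [e]; simp
        rw [e3, e, hb true, coin_single, hA]
        ring
      · have e : t v = {false} := by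
          ext b; cases b <;> simp [h1, h2]
        have e3 : {T : Vx → Bool | T v ∈ t v} = {T | T v = false} := by rw [e]; simp
        rw [e3, e, hb false, coin_single, hA]
        ring
      · have e : t v = ∅ := by
          ext b; cases b <;> simp [h1, h2]
        have e3 : {T : Vx → Bool | T v ∈ t v} = ∅ := by rw [e]; simp
        rw [e3, e]
        simp
  rcases eq_or_ne (m univ) 0 with h0 | h0
  · rw [Measure.measure_univ_eq_zero.1 h0]
    simp
  · have hfin : m univ ≠ ⊤ := measure_ne_top _ _
    have h1 : (m univ)⁻¹ • m = PT := by
      refine Measure.eq_infinitePi _ fun s t ht => ?_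
      rw [Measure.smul_apply, smul_eq_mul, key s t ht, ← mul_assoc, ENNReal.inv_mul_cancel h0 hfin,
        one_mul]
    rw [← h1, smul_smul, ENNReal.mul_inv_cancel h0 hfin, one_smul]

/-- a probability measure on pairs with the right first marginal which is invariant under flips of
single plaquettes is a product -/
theorem eq_prod {X : Type*} [MeasurableSpace X] {m : Measure (X × (Vx → Bool))}
    [IsProbabilityMeasure m] {a : Measure X} [IsProbabilityMeasure a]
    (h1 : m.map Prod.fst = a)
    (h : ∀ v : Vx, m.map (fun b => (b.1, vx b.2 (dl v))) = m) : m = a.prod PT := by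
  have hmeas : ∀ v : Vx, Measurable fun T : Vx → Bool => vx T (dl v) := by
    intro v
    refine measurable_pi_iff.2 fun u => ?_
    unfold vx
    exact (measurable_from_top (f := fun b : Bool => xor b (dl v u))).comp (measurable_pi_apply u)
  refine (Measure.prod_eq fun s t hs ht => ?_).symm
  set ms : Measure (Vx → Bool) := (m.restrict (Prod.fst ⁻¹' s)).map Prod.snd with hms
  have hinv : ∀ v : Vx, ms.map (fun T => vx T (dl v)) = ms := by
    intro v
    ext D hD
    have hm2 : Measurable fun b : X × (Vx → Bool) => (b.1, vx b.2 (dl v)) :=
      measurable_fst.prodMk ((hmeas v).comp measurable_snd)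
    rw [Measure.map_apply (hmeas v) hD, hms, Measure.map_apply measurable_snd (hmeas v hD),
      Measure.map_apply measurable_snd hD,
      Measure.restrict_apply (measurable_snd (hmeas v hD)), Measure.restrict_apply
        (measurable_snd hD)]
    conv_rhs => rw [← h v]
    rw [Measure.map_apply hm2 ((measurable_snd hD).inter (measurable_fst hs))]
    rfl
  have e1 := eq_smul_PT hinv
  have e2 : m (s ×ˢ t) = ms t := by
    rw [hms, Measure.map_apply measurable_snd ht, Measure.restrict_apply (measurable_snd ht)]
    congr 1
    ext b
    simp [and_comm]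
  have e3 : ms univ = a s := by
    rw [hms, Measure.map_apply measurable_snd MeasurableSet.univ, preimage_univ,
      Measure.restrict_apply_univ, ← h1, Measure.map_apply measurable_fst hs]
  rw [e2, e1, Measure.smul_apply, e3, smul_eq_mul]

/-- law of the absolute value -/
noncomputable abbrev lm (μ : Measure ℝ) : Measure ℝ := μ.map fun x => |x|

theorem prob_lm (μ : Measure ℝ) [IsProbabilityMeasure μ] : IsProbabilityMeasure (lm μ) :=
  Measure.isProbabilityMeasure_map measurable_abs.aemeasurable

theorem wgt_lm {μ : Measure ℝ} [IsProbabilityMeasure μ] (hμ : ∀ x : ℝ, μ {x} = 0) :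
    Wgt (lm μ) := by
  refine ⟨prob_lm μ, fun x => ?_, ?_⟩
  · rw [Measure.map_apply measurable_abs (measurableSet_singleton x)]
    refine measure_mono_null (t := {x} ∪ {-x}) (fun y hy => ?_) (measure_union_null (hμ _) (hμ _))
    have hy' : |y| = x := hy
    rcases abs_eq_abs.1 (show |y| = |x| by rw [← hy', abs_abs]) with h | h
    · left; exact h
    · right; exact h
  · rw [Measure.map_apply measurable_abs measurableSet_Iic]
    refine measure_mono_null (t := {0}) (fun y hy => ?_) (hμ _)
    have hy' : |y| ≤ 0 := hy
    exact abs_eq_zero.1 (le_antisymm hy' (abs_nonneg y))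

theorem ae_ne {μ : Measure ℝ} [IsProbabilityMeasure μ] (hμ : ∀ x : ℝ, μ {x} = 0) :
    ∀ᵐ J ∂(PP μ), ∀ e, J e ≠ 0 := by
  refine ae_all_iff.2 fun e => ?_
  have h1 : (PP μ) ((fun J : Ed → ℝ => J e) ⁻¹' {0}) = 0 := by
    rw [← Measure.map_apply (measurable_pi_apply e) (measurableSet_singleton 0),
      Measure.infinitePi_map_eval]
    exact hμ 0
  rw [ae_iff]
  refine measure_mono_null (fun J hJ => ?_) h1
  have hJ' : ¬ J e ≠ 0 := hJ
  push Not at hJ'
  exact hJ'

/-- **the law of the weights and the frustrated plaquettes** -/
theorem law_wf {μ : Measure ℝ} [IsProbabilityMeasure μ] (hμ : ∀ x : ℝ, μ {x} = 0)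
    (hsym : μ.map (fun x => -x) = μ) :
    (PP μ).map (fun J => (wt J, fr J)) = PB (lm μ) := by
  have := prob_lm μ
  have hm : Measurable fun J : Ed → ℝ => (wt J, fr J) := measurable_wt.prodMk measurable_fr
  have : IsProbabilityMeasure ((PP μ).map fun J : Ed → ℝ => (wt J, fr J)) :=
    Measure.isProbabilityMeasure_map hm.aemeasurable
  refine eq_prod ?_ fun v => ?_
  · rw [Measure.map_map measurable_fst hm]
    have : (Prod.fst ∘ fun J : Ed → ℝ => (wt J, fr J)) = fun J e => |J e| := rfl
    rw [this]
    exact Measure.infinitePi_map_pi _ fun _ => measurable_abs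
  · have hmeas : Measurable fun b : (Ed → ℝ) × (Vx → Bool) => (b.1, vx b.2 (dl v)) := by
      refine measurable_fst.prodMk (measurable_pi_iff.2 fun u => ?_)
      unfold vx
      exact (measurable_from_top (f := fun b : Bool => xor b (dl v u))).comp
        ((measurable_pi_apply u).comp measurable_snd)
    rw [Measure.map_map hmeas hm]
    have h1 : (PP μ).map ((fun b : (Ed → ℝ) × (Vx → Bool) => (b.1, vx b.2 (dl v))) ∘
        fun J : Ed → ℝ => (wt J, fr J)) = (PP μ).map ((fun J : Ed → ℝ => (wt J, fr J)) ∘
          flp (ray v)) := by
      refine Measure.map_congr ?_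
      filter_upwards [ae_ne hμ] with J hJ
      simp only [Function.comp_apply]
      rw [wt_flp, fr_flp hJ, par_ray]
    rw [h1, ← Measure.map_map hm (measurable_flp _), (mp_flp μ hsym (ray v)).map_eq]

end Pool.Agent.Helper66.LK
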