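import Pool.Agent.Helper66.LK.Law
import Pool.Agent.Helper66.LK.Spin
import Pool.Agent.Helper60.TJ.A3
import Pool.Agent.Helper66.EAM.Res3

set_option autoImplicit false

/-! A covariant choice of a locally minimal T-join gives a covariant ground state. -/

namespace Pool.Agent.Helper66.LK

open MeasureTheory Set Pool.Agent.Helper60.TJ Pool.Agent.Helper60.TJ.A1x Pool.H66.EAM
open Pool.Agent.Helper61.MM (shB shT PB WT)

/-- couplings indexed by the other edge type -/
def tr (J : E → ℝ) : Ed → ℝ := fun f => J (cE.symm f)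

theorem measurable_tr : Measurable tr :=
  measurable_pi_iff.2 fun f => measurable_pi_apply (cE.symm f)

theorem map_tr (μ : Measure ℝ) [IsProbabilityMeasure μ] :
    (Measure.infinitePi fun _ : E => μ).map tr = PP μ := by
  have h := Measure.infinitePi_map_piCongrLeft (X := fun _ : Ed => ℝ) (fun _ : Ed => μ) cE
  refine Eq.trans ?_ h
  congr 1
  funext J f
  have h1 : (MeasurableEquiv.piCongrLeft (fun _ : Ed => ℝ) cE) J (cE (cE.symm f)) =
      J (cE.symm f) := Equiv.piCongrLeft_apply_apply (fun _ : Ed => ℝ) cE J (cE.symm f)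
  rw [Equiv.apply_symm_apply] at h1
  exact h1.symm

theorem ae_tr {μ : Measure ℝ} [IsProbabilityMeasure μ] {p : (Ed → ℝ) → Prop}
    (h : ∀ᵐ J ∂(PP μ), p J) : ∀ᵐ J ∂(Measure.infinitePi fun _ : E => μ), p (tr J) := by
  rw [← map_tr μ] at h
  exact ae_of_ae_map measurable_tr.aemeasurable h

/-- weights and frustrated plaquettes -/
noncomputable def wf (J : Ed → ℝ) : WT := (wt J, fr J)

theorem measurable_wf : Measurable wf := measurable_wt.prodMk measurable_fr

theorem ae_wf {μ : Measure ℝ} [IsProbabilityMeasure μ] (hμ : ∀ x : ℝ, μ {x} = 0)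
    (hsym : μ.map (fun x => -x) = μ) {p : WT → Prop}
    (h : ∀ᵐ b ∂(PB (lm μ)), p b) : ∀ᵐ J ∂(PP μ), p (wf J) := by
  rw [← law_wf hμ hsym] at h
  exact ae_of_ae_map measurable_wf.aemeasurable h

theorem pa_add (e : Ed) (u : Vx) : pa (e.1 + u, e.2) = pa e + u := rfl

theorem pb_add (e : Ed) (u : Vx) : pb (e.1 + u, e.2) = pb e + u := by
  obtain ⟨⟨x, y⟩, b⟩ := e
  obtain ⟨a, c⟩ := u
  cases b
  · simp only [pb, Prod.mk_add_mk, Bool.false_eq_true, if_false]
    rw [add_right_comm]
  · simp only [pb, Prod.mk_add_mk, if_true]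
    rw [add_right_comm]

theorem par_sh (u : Vx) (X : Ed → Bool) : par (sh u X) = shT u (par X) := by
  funext v
  have h : ∀ d, sh u X (edg v d) = X (edg (v + u) d) := by
    intro d
    obtain ⟨x, y⟩ := v
    obtain ⟨a, c⟩ := u
    fin_cases d
    · show X ((x + 1 + a, y + c), true) = X ((x + a + 1, y + c), true)
      rw [add_right_comm]
    · show X ((x + a, y + 1 + c), false) = X ((x + a, y + c + 1), false)
      rw [add_right_comm]
    · rfl
    · rfl
  unfold par shT
  rw [h, h, h, h]

theorem wf_sh (u : Vx) (J : Ed → ℝ) : wf (sh u J) = shB u (wf J) := by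
  refine Prod.ext rfl ?_
  show par (ng (sh u J)) = shT u (par (ng J))
  rw [← par_sh]
  rfl

/-- unsatisfied edges shifted by the signs -/
noncomputable def xa (al : WT → Ed → Bool) (J : Ed → ℝ) : Ed → Bool := bx (ng J) (al (wf J))

/-- the spin configuration -/
noncomputable def alp (al : WT → Ed → Bool) (J : E → ℝ) : V → ℝ :=
  fun x => sn (pot (xa al (tr J)) (vV x))

theorem measurable_prim {X : Type*} [MeasurableSpace X] {f : X → ℤ → Bool}
    (hf : ∀ i, Measurable fun a => f a i) (n : ℤ) : Measurable fun a => prim (f a) n := by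
  have h2 : Measurable fun q : Bool × Bool => xor q.1 q.2 := measurable_of_countable _
  have hP : ∀ k : ℕ, Measurable fun a => prP (f a) k := by
    intro k
    induction k with
    | zero => exact measurable_const
    | succ k ih => exact h2.comp (ih.prodMk (hf _))
  have hQ : ∀ k : ℕ, Measurable fun a => prQ (f a) k := by
    intro k
    induction k with
    | zero => exact measurable_const
    | succ k ih => exact h2.comp (ih.prodMk (hf _))
  rcases n with k | k
  · exact hP k
  · exact hQ (k + 1)

theorem measurable_pot (v : Vx) : Measurable fun X : Ed → Bool => pot X v := by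
  have h2 : Measurable fun q : Bool × Bool => xor q.1 q.2 := measurable_of_countable _
  unfold pot
  exact h2.comp ((measurable_prim (fun i => measurable_pi_apply _) _).prodMk
    (measurable_prim (fun i => measurable_pi_apply _) _))

theorem measurable_xa {al : WT → Ed → Bool} (hm : Measurable al) : Measurable (xa al) := by
  refine measurable_pi_iff.2 fun e => ?_
  have h2 : Measurable fun q : Bool × Bool => xor q.1 q.2 := measurable_of_countable _
  unfold xa bx
  exact h2.comp (((measurable_pi_apply e).comp measurable_ng).prodMk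
    ((measurable_pi_apply e).comp (hm.comp measurable_wf)))

theorem measurable_alp {al : WT → Ed → Bool} (hm : Measurable al) : Measurable (alp al) := by
  refine measurable_pi_iff.2 fun x => ?_
  have h1 : Measurable sn := measurable_of_countable _
  exact h1.comp ((measurable_pot _).comp ((measurable_xa hm).comp measurable_tr))

theorem tr_shJ (v : V) (J : E → ℝ) : tr (shJ v J) = sh (vV v) (tr J) := by
  funext ⟨⟨x, y⟩, b⟩
  show J (Ve (x, y) + v, _) = J (Ve ((x, y) + vV v), _)
  congr 2
  funext j
  fin_cases j <;> rfl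

theorem shift_pot {X : Ed → Bool} (h : ∀ v, par X v = false) (u : Vx) :
    pot (sh u X) = (fun v => pot X (v + u)) ∨ pot (sh u X) = fun v => !(pot X (v + u)) := by
  refine cut_eq_iff.1 ?_
  have h1 : ∀ v, par (sh u X) v = false := fun v => by rw [par_sh]; exact h (v + u)
  rw [cut_pot h1]
  funext e
  have h2 := congrFun (cut_pot h) (e.1 + u, e.2)
  unfold Pool.Agent.Helper60.TJ.cut at h2
  rw [pa_add, pb_add] at h2
  exact h2.symm

/-- a covariant choice of a locally minimal T-join gives a covariant ground state -/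
theorem covariant_of_al {μ : Measure ℝ} [IsProbabilityMeasure μ] (hμ : ∀ x : ℝ, μ {x} = 0)
    (hsym : μ.map (fun x => -x) = μ) {al : WT → Ed → Bool} (hm : Measurable al)
    (hg : ∀ᵐ b ∂(PB (lm μ)), al b ∈ GS b.1 b.2)
    (hc : ∀ u, ∀ᵐ b ∂(PB (lm μ)), al (shB u b) = sh u (al b)) :
    Covariant μ id (alp al) := by
  refine ⟨measurable_alp hm, ?_, fun v => ?_⟩
  · filter_upwards [ae_tr (ae_wf hμ hsym hg), ae_tr (ae_basic μ hμ)] with J hJ hJ2
    refine ground_of_GS (J' := tr J) (fun e => ?_) hJ2.2 hJ
    show J e = J (cE.symm (cE e))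
    rw [Equiv.symm_apply_apply]
  · filter_upwards [ae_tr (ae_wf hμ hsym hg), ae_tr (ae_wf hμ hsym (hc (vV v)))] with J hJ hJc
    have hX : ∀ w, par (xa al (tr J)) w = false := by
      intro w
      unfold xa
      rw [par_bx, hJ.1 w]
      show xor (fr (tr J) w) (fr (tr J) w) = false
      simp
    have h1 : xa al (tr (shJ v J)) = sh (vV v) (xa al (tr J)) := by
      unfold xa
      rw [tr_shJ, wf_sh, hJc]
      rfl
    rcases shift_pot hX (vV v) with h2 | h2
    · left
      funext x
      show sn (pot (xa al (tr (shJ v J))) (vV x)) = sn (pot (xa al (tr J)) (vV (x + v)))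
      rw [h1, h2]
      rfl
    · right
      funext x
      show sn (pot (xa al (tr (shJ v J))) (vV x)) = -sn (pot (xa al (tr J)) (vV (x + v)))
      rw [h1, h2]
      show sn (!(pot (xa al (tr J)) (vV x + vV v))) = -sn (pot (xa al (tr J)) (vV x + vV v))
      cases pot (xa al (tr J)) (vV x + vV v) <;> simp [sn]

/-- **link**: a covariant choice of a locally minimal T-join implies case A -/
theorem caseA_of_al {μ : Measure ℝ} [IsProbabilityMeasure μ] (hμ : ∀ x : ℝ, μ {x} = 0)
    (hsym : μ.map (fun x => -x) = μ) {al : WT → Ed → Bool} (hm : Measurable al)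
    (hg : ∀ᵐ b ∂(PB (lm μ)), al b ∈ GS b.1 b.2)
    (hc : ∀ u, ∀ᵐ b ∂(PB (lm μ)), al (shB u b) = sh u (al b)) : CaseA μ :=
  caseA_of_cov hμ (covariant_of_al hμ hsym hm hg hc)

end Pool.Agent.Helper66.LK
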